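import Pool.Agent.H14.LatinCrit

/-!
# MP_e1ba52_co: a critical set with 17 triples in the cyclic latin square of order 6
-/

set_option autoImplicit false

namespace Pool.Agent.Results.MP_e1ba52_co.Seventeen

open H14.Latin

/-- The cyclic latin square of order 6 has a critical set with 17 triples, more than
`6 * 5 / 2 = 15`. Hence it is not true that for every `n ≥ 1` every critical set of the cyclic
latin square of order `n` has at most `n (n - 1) / 2` triples. -/
theorem result :
    (∃ U : Finset (Fin 6 × Fin 6 × Fin 6), IsCriticalSet (cyclic 6) U ∧ U.card = 17) ∧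
    ¬ ∀ n : ℕ, 1 ≤ n → ∀ U : Finset (Fin n × Fin n × Fin n),
      IsCriticalSet (cyclic n) U → U.card ≤ n * (n - 1) / 2 := by
  refine ⟨⟨U, critical, card_U⟩, fun h => ?_⟩
  have := h 6 (by norm_num) U critical
  rw [card_U] at this
  norm_num at this

end Pool.Agent.Results.MP_e1ba52_co.Seventeen
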